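import Pool.Agent.Results.MP_97cbc3_al.FiniteMonoid

/-!
# Orbits of iterated Quillen negations in the category of topological spaces are finite

For every class `P` of continuous maps, in particular for `P = {f}` with `f` a continuous map
between finite spaces, only finitely many classes occur among the `P^w`, where `w` runs through
all finite words in the letters `l` and `r`; the number of these classes is bounded by a constant
which does not depend on `P`.
-/

set_option autoImplicit false

open CategoryTheory

universe u

namespace Pool.Agent.Results.MP_78ea0d_gt.FiniteOrbits

/-- The two letters. -/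
inductive Letter
  | l
  | r

/-- `neg w P` is the class `P^w`: the letters of `w` are applied from left to right, the letter
`l` replaces a class by the class of all maps with the left lifting property against its members,
the letter `r` by the class of all maps with the right lifting property. -/
def neg : List Letter → MorphismProperty TopCat.{u} → MorphismProperty TopCat.{u}
  | [], P => P
  | Letter.l :: w, P => neg w P.llp
  | Letter.r :: w, P => neg w P.rlp

/-- The orbit of the class `P`: all the classes `P^w`. -/
def orbit (P : MorphismProperty TopCat.{u}) : Set (MorphismProperty TopCat.{u}) :=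
  Set.range fun w : List Letter => neg w P

open Pool.Agent.Results.MP_97cbc3_al.FiniteMonoid in
theorem exists_op (w : List Letter) : ∃ g ∈ (Submonoid.closure {opL.{u}, opR.{u}} :
    Submonoid (Function.End (MorphismProperty TopCat.{u}))), ∀ P, neg w P = g P := by
  induction w with
  | nil => exact ⟨1, Submonoid.one_mem _, fun P => rfl⟩
  | cons a w ih =>
    obtain ⟨g, hg, h⟩ := ih
    cases a
    · exact ⟨g * opL, Submonoid.mul_mem _ hg (Submonoid.subset_closure (Or.inl rfl)),
        fun P => h P.llp⟩
    · exact ⟨g * opR, Submonoid.mul_mem _ hg (Submonoid.subset_closure (Or.inr rfl)),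
        fun P => h P.rlp⟩

open Pool.Agent.Results.MP_97cbc3_al.FiniteMonoid in
/-- **Main result.** There is a number `N` such that for every class `P` of continuous maps the
classes `P^w` are finitely many, and at most `N`. For a continuous map `f`, take `P` to be
`MorphismProperty.single f`. -/
theorem result : ∃ N : ℕ, ∀ P : MorphismProperty TopCat.{u},
    (orbit P).Finite ∧ (orbit P).ncard ≤ N := by
  have hfin : Finite (Submonoid.closure {opL.{u}, opR.{u}} :
      Submonoid (Function.End (MorphismProperty TopCat.{u}))) :=
    Pool.Agent.Results.MP_97cbc3_al.FiniteMonoid.result
  have hS : ((Submonoid.closure {opL.{u}, opR.{u}} :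
      Submonoid (Function.End (MorphismProperty TopCat.{u}))) :
      Set (Function.End (MorphismProperty TopCat.{u}))).Finite := Set.toFinite _
  refine ⟨((Submonoid.closure {opL.{u}, opR.{u}} :
      Submonoid (Function.End (MorphismProperty TopCat.{u}))) :
      Set (Function.End (MorphismProperty TopCat.{u}))).ncard, fun P => ?_⟩
  have hsub : orbit P ⊆ (fun g : Function.End (MorphismProperty TopCat.{u}) => g P) ''
      ((Submonoid.closure {opL.{u}, opR.{u}} :
      Submonoid (Function.End (MorphismProperty TopCat.{u}))) :
      Set (Function.End (MorphismProperty TopCat.{u}))) := by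
    rintro _ ⟨w, rfl⟩
    obtain ⟨g, hg, h⟩ := exists_op w
    exact ⟨g, hg, (h P).symm⟩
  exact ⟨(hS.image _).subset hsub,
    (Set.ncard_le_ncard hsub (hS.image _)).trans (Set.ncard_image_le hS)⟩

end Pool.Agent.Results.MP_78ea0d_gt.FiniteOrbits
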